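import Mathlib

namespace Pool.Agent.Results.MP_642fbc_lc.RareOrphans

open Finset

/-- The image word `f(v)` of a word `v` of length `l + 1` under the range-2 rule `f`. -/
def image {S : Type} (f : S → S → S) {l : ℕ} (v : Fin (l + 1) → S) : Fin l → S :=
  fun i => f (v i.castSucc) (v i.succ)

/-- `u` is an orphan of the range-2 cellular automaton `(S, f)`. -/
def IsOrphan {S : Type} (f : S → S → S) {l : ℕ} (u : Fin l → S) : Prop :=
  ¬ ∃ v : Fin (l + 1) → S, image f v = u

/-- `m` is the length of a shortest orphan of `(S, f)`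
(in particular, there is an orphan, that is, the automaton is non-surjective). -/
def IsShortestOrphanLength {S : Type} (f : S → S → S) (m : ℕ) : Prop :=
  (∃ u : Fin m → S, IsOrphan f u) ∧ ∀ l < m, ∀ u : Fin l → S, ¬ IsOrphan f u

/-- The proportion `ρ(l)` of the words of length `l` that are orphans. -/
noncomputable def rho {S : Type} (f : S → S → S) (l : ℕ) : ℝ :=
  (Nat.card {u : Fin l → S // IsOrphan f u} : ℝ) / (Nat.card (Fin l → S) : ℝ)

/-! ### The automaton -/

/-- The set of states. -/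
abbrev St (N : ℕ) : Type := Bool × Fin (N + 1)

/-- The target layer. -/
def tgt {N : ℕ} (a : Bool) (b : Fin (N + 1)) (hb : b ≠ Fin.last N) : Fin (N + 1) :=
  if a = true ∧ b = 0 then 0 else
    ⟨b.1 + 1, by
      have h1 := b.2
      have h2 : b.1 ≠ N := fun h => hb (Fin.ext (by simpa using h))
      omega⟩

/-- The local rule. -/
def rule (N : ℕ) (s t : St N) : St N :=
  if hb : s.2 = Fin.last N then (s.1, t.2)
  else if t.2 = tgt s.1 s.2 hb then (xor s.1 t.1, 0)
  else (s.1, Equiv.swap 0 (tgt s.1 s.2 hb) t.2)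

theorem rule_nz {N : ℕ} (s : St N) (α : Bool) (β : Fin (N + 1)) (y : St N) (hy : y.2 ≠ 0)
    (h : rule N s (α, β) = y) : ∀ α', rule N s (α', β) = y := by
  intro α'
  unfold rule at h ⊢
  split_ifs at h ⊢ with h1 h2
  · exact h
  · exfalso; apply hy; rw [← h]
  · exact h

theorem exists_rule_nz {N : ℕ} (s : St N) (y : St N) (hy : y.2 ≠ 0) (hs : s.1 = y.1) (α : Bool) :
    ∃ β, rule N s (α, β) = y := by
  by_cases h1 : s.2 = Fin.last N
  · refine ⟨y.2, ?_⟩
    unfold rule
    rw [dif_pos h1]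
    exact Prod.ext hs rfl
  · refine ⟨Equiv.swap 0 (tgt s.1 s.2 h1) y.2, ?_⟩
    unfold rule
    rw [dif_neg h1, if_neg]
    · refine Prod.ext hs ?_
      simp
    · intro h
      apply hy
      have := congrArg (Equiv.swap 0 (tgt s.1 s.2 h1)) h
      simpa using this

theorem rule_z_iff {N : ℕ} (a : Bool) (b : Fin (N + 1)) (α : Bool) (β : Fin (N + 1)) (a' : Bool) :
    rule N (a, b) (α, β) = (a', 0) ↔
      (∃ hb : b ≠ Fin.last N, a = xor a' α ∧ β = tgt a b hb) ∨
      (b = Fin.last N ∧ a = a' ∧ β = 0) := by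
  unfold rule
  by_cases h1 : b = Fin.last N
  · simp [h1]
  · by_cases h2 : β = tgt a b h1
    · simp only [h1, dite_false, h2, if_true, Prod.mk.injEq, and_true, false_and, or_false]
      constructor
      · intro h
        refine ⟨h1, ?_⟩
        rw [← h]; cases a <;> cases α <;> rfl
      · rintro ⟨_, h⟩
        rw [h]; cases a' <;> cases α <;> rfl
    · simp only [h1, dite_false, h2, if_false, Prod.mk.injEq, false_and, or_false]
      constructor
      · rintro ⟨_, h⟩
        exfalso; apply h2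
        have := congrArg (Equiv.swap 0 (tgt a b h1)) h
        simpa using this
      · rintro ⟨_, _, h⟩
        exact absurd h (by simpa using h2)

/-- The set of possible last letters of a preimage of `u 0 ⋯ u (j-1)`. -/
def reach (N : ℕ) (u : ℕ → St N) : ℕ → Set (St N)
  | 0 => Set.univ
  | (j + 1) => {t | ∃ s ∈ reach N u j, rule N s t = u j}

theorem exists_of_reach {N : ℕ} (u : ℕ → St N) (j : ℕ) (t : St N) (ht : t ∈ reach N u j) :
    ∃ v : ℕ → St N, (∀ i < j, rule N (v i) (v (i + 1)) = u i) ∧ v j = t := by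
  induction j generalizing t with
  | zero => exact ⟨fun _ => t, by simp, rfl⟩
  | succ j ih =>
    obtain ⟨s, hs, hst⟩ := ht
    obtain ⟨v, hv, hvj⟩ := ih s hs
    refine ⟨fun i => if i ≤ j then v i else t, ?_, by simp⟩
    intro i hi
    rcases Nat.lt_succ_iff_lt_or_eq.mp hi with h | h
    · simp only [h.le, if_true, show i + 1 ≤ j by omega]
      exact hv i h
    · subst h
      simp [hvj, hst]

/-- The invariant. -/
def Inv {N : ℕ} (k : ℕ) (A : Set (St N)) : Prop :=
  (∀ α, ∃ b, (α, b) ∈ A) ∧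
    ∀ b : Fin (N + 1), (k = 0 ∨ k < b.1) → ∀ α, ((α, b) ∈ A ↔ (false, b) ∈ A)

theorem inv_step_nz {N : ℕ} {k : ℕ} {A : Set (St N)} (h : Inv k A) (y : St N) (hy : y.2 ≠ 0) :
    Inv 0 {t | ∃ s ∈ A, rule N s t = y} := by
  refine ⟨?_, ?_⟩
  · intro α
    obtain ⟨b, hb⟩ := h.1 y.1
    obtain ⟨β, hβ⟩ := exists_rule_nz (y.1, b) y hy rfl α
    exact ⟨β, _, hb, hβ⟩
  · intro b _ α
    constructor
    · rintro ⟨s, hs, hst⟩
      exact ⟨s, hs, rule_nz s α b y hy hst _⟩
    · rintro ⟨s, hs, hst⟩
      exact ⟨s, hs, rule_nz s false b y hy hst _⟩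

theorem inv_step_z {N : ℕ} {k : ℕ} {A : Set (St N)} (h : Inv k A) (hk : k < N) (a' : Bool) :
    Inv (k + 1) {t | ∃ s ∈ A, rule N s t = (a', 0)} := by
  refine ⟨?_, ?_⟩
  · intro α
    obtain ⟨b, hb⟩ := h.1 (xor a' α)
    by_cases hbl : b = Fin.last N
    · have h1 : ∀ α, ((α, Fin.last N) ∈ A ↔ (false, Fin.last N) ∈ A) := by
        apply h.2
        right; simpa using hk
      rw [hbl] at hb
      refine ⟨0, (a', Fin.last N), ?_, ?_⟩
      · rw [h1]; rw [h1] at hb; exact hb
      · rw [rule_z_iff]; right; exact ⟨rfl, rfl, rfl⟩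
    · refine ⟨tgt (xor a' α) b hbl, _, hb, ?_⟩
      rw [rule_z_iff]; left
      exact ⟨hbl, rfl, rfl⟩
  · intro β hβ
    have hβ2 : k + 1 < β.1 := by
      rcases hβ with h | h
      · omega
      · exact h
    have hβ0 : β ≠ 0 := by
      intro h; rw [h] at hβ2; simp at hβ2
    -- the predecessor layer
    have hlt : β.1 - 1 < N + 1 := by have := β.2; omega
    set p : Fin (N + 1) := ⟨β.1 - 1, hlt⟩ with hp
    have hpl : p ≠ Fin.last N := by
      intro h
      have := congrArg Fin.val h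
      simp [hp] at this
      have := β.2
      omega
    have hp0 : p ≠ 0 := by
      intro h
      have := congrArg Fin.val h
      simp [hp] at this
      omega
    have key : ∀ α, ((α, β) ∈ {t | ∃ s ∈ A, rule N s t = (a', 0)} ↔ (xor a' α, p) ∈ A) := by
      intro α
      constructor
      · rintro ⟨⟨a, b⟩, hs, hst⟩
        rw [rule_z_iff] at hst
        rcases hst with ⟨hb, h1, h2⟩ | ⟨_, _, h3⟩
        · have : b = p := by
            unfold tgt at h2
            split_ifs at h2 with h3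
            · exact absurd h2 hβ0
            · apply Fin.ext
              rw [hp]
              have := congrArg Fin.val h2
              simp at this
              simp; omega
          rw [← h1, ← this]; exact hs
        · exact absurd h3 hβ0
      · intro hpA
        refine ⟨_, hpA, ?_⟩
        rw [rule_z_iff]
        left
        refine ⟨hpl, rfl, ?_⟩
        unfold tgt
        rw [if_neg (fun h => hp0 h.2)]
        apply Fin.ext
        simp [hp]; omega
    intro α
    rw [key, key]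
    have h2 : ∀ α, ((α, p) ∈ A ↔ (false, p) ∈ A) := by
      apply h.2
      right; simp [hp]; omega
    rw [h2, h2 (xor a' false)]

theorem inv_univ {N : ℕ} : Inv 0 (Set.univ : Set (St N)) :=
  ⟨fun _ => ⟨0, trivial⟩, fun _ _ _ => by simp⟩

/-- If no `N + 1` consecutive letters of `u 0 ⋯ u (l-1)` have second component `0`, then
the invariant holds all the time. -/
theorem inv_reach {N : ℕ} (u : ℕ → St N) (l : ℕ)
    (hu : ∀ i, i + N < l → ∃ q ≤ N, (u (i + q)).2 ≠ 0) :
    ∀ j ≤ l, ∃ k ≤ N, k ≤ j ∧ (∀ i, j - k ≤ i → i < j → (u i).2 = 0) ∧ Inv k (reach N u j) := by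
  intro j
  induction j with
  | zero => intro _; exact ⟨0, Nat.zero_le _, le_rfl, by simp, inv_univ⟩
  | succ j ih =>
    intro hj
    obtain ⟨k, hkN, hkj, hz, hI⟩ := ih (by omega)
    by_cases h0 : (u j).2 = 0
    · by_cases hk : k < N
      · refine ⟨k + 1, hk, by omega, ?_, ?_⟩
        · intro i h1 h2
          rcases Nat.lt_succ_iff_lt_or_eq.mp h2 with h | h
          · exact hz i (by omega) h
          · rw [h]; exact h0
        · have := inv_step_z hI hk (u j).1
          have e : ((u j).1, (0 : Fin (N + 1))) = u j := Prod.ext rfl h0.symm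
          rw [e] at this
          exact this
      · exfalso
        have hkN' : k = N := by omega
        subst hkN'
        obtain ⟨q, hq, hne⟩ := hu (j - k) (by omega)
        apply hne
        rcases Nat.lt_or_ge (j - k + q) j with h | h
        · exact hz _ (by omega) h
        · have : j - k + q = j := by omega
          rw [this]; exact h0
    · exact ⟨0, Nat.zero_le _, Nat.zero_le _, by intro i h1 h2; omega, inv_step_nz hI _ h0⟩

theorem not_orphan {N : ℕ} {l : ℕ} (u : Fin l → St N)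
    (hu : ∀ i, i + N < l → ∃ q ≤ N, ∃ h : i + q < l, (u ⟨i + q, h⟩).2 ≠ 0) :
    ¬ IsOrphan (rule N) u := by
  intro ho
  apply ho
  obtain ⟨k, _, _, _, hI⟩ := inv_reach (N := N)
    (fun i => if h : i < l then u ⟨i, h⟩ else (false, 0)) l (by
      intro i hi
      obtain ⟨q, hq, h, hne⟩ := hu i hi
      refine ⟨q, hq, ?_⟩
      simpa [h] using hne) l le_rfl
  obtain ⟨b, hb⟩ := hI.1 false
  obtain ⟨v, hv, _⟩ := exists_of_reach _ _ _ hb
  refine ⟨fun i => v i.1, ?_⟩
  funext i
  have := hv i.1 i.2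
  simpa [image] using this

/-- The words with second components zero on the window starting at `i`. -/
def window (N l i : ℕ) : Finset (Fin l → St N) :=
  Fintype.piFinset fun j : Fin l =>
    if i ≤ j.1 ∧ j.1 ≤ i + N then ({(false, 0), (true, 0)} : Finset (St N)) else univ

theorem card_window (N l i : ℕ) (hi : i + N < l) :
    ((window N l i).card : ℝ) * (N + 1 : ℝ) ^ (N + 1) = (Nat.card (Fin l → St N) : ℝ) := by
  have hcard : (window N l i).card * (N + 1) ^ (N + 1) = (2 * (N + 1)) ^ l := by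
    unfold window
    rw [Fintype.card_piFinset]
    have h1 : ∀ j : Fin l, (if i ≤ j.1 ∧ j.1 ≤ i + N then
        ({(false, 0), (true, 0)} : Finset (St N)) else univ).card *
          (if i ≤ j.1 ∧ j.1 ≤ i + N then (N + 1) else 1) = 2 * (N + 1) := by
      intro j
      split_ifs with h
      · rw [Finset.card_pair (by simp)]
      · simp [Fintype.card_prod]
    have h2 : ∏ j : Fin l, (if i ≤ j.1 ∧ j.1 ≤ i + N then (N + 1) else 1) = (N + 1) ^ (N + 1) := by
      rw [Finset.prod_ite, Finset.prod_const, Finset.prod_const_one, mul_one]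
      congr 1
      have : (univ.filter (fun j : Fin l => i ≤ j.1 ∧ j.1 ≤ i + N)).card
          = (Finset.Icc i (i + N)).card := by
        apply Finset.card_bij (fun j _ => j.1)
        · intro j hj
          simpa using hj
        · intro a _ b _ h
          exact Fin.ext h
        · intro b hb
          rw [Finset.mem_Icc] at hb
          exact ⟨⟨b, by omega⟩, by simpa using hb, rfl⟩
      rw [this]; simp; omega
    rw [← h2, ← Finset.prod_mul_distrib, Finset.prod_congr rfl (fun j _ => h1 j)]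
    simp
  have h3 : Nat.card (Fin l → St N) = (2 * (N + 1)) ^ l := by
    rw [Nat.card_eq_fintype_card]
    simp [Fintype.card_prod]
  rw [h3, ← hcard]
  push_cast
  ring

theorem rho_le (N l : ℕ) : rho (rule N) l ≤ (l : ℝ) / (N + 1 : ℝ) ^ (N + 1) := by
  classical
  have hpos : (0 : ℝ) < (N + 1 : ℝ) ^ (N + 1) := by positivity
  have hT : (0 : ℝ) < (Nat.card (Fin l → St N) : ℝ) := by
    have : 0 < Nat.card (Fin l → St N) := Nat.card_pos
    exact_mod_cast this
  unfold rho
  rw [div_le_div_iff₀ hT hpos]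
  have hsub : Nat.card {u : Fin l → St N // IsOrphan (rule N) u} ≤
      ((range (l - N)).biUnion (window N l)).card := by
    rw [Nat.card_eq_fintype_card, Fintype.card_subtype]
    apply Finset.card_le_card
    intro u hu
    simp only [Finset.mem_filter, Finset.mem_univ, true_and] at hu
    by_contra hcon
    apply not_orphan u ?_ hu
    intro i hi
    by_contra hno
    push Not at hno
    apply hcon
    rw [Finset.mem_biUnion]
    refine ⟨i, Finset.mem_range.mpr (by omega), ?_⟩
    unfold window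
    rw [Fintype.mem_piFinset]
    intro j
    split_ifs with h
    · have := hno (j.1 - i) (by omega) (by have := j.2; omega)
      have e : (⟨i + (j.1 - i), by have := j.2; omega⟩ : Fin l) = j := by
        apply Fin.ext; simp; omega
      rw [e] at this
      have e2 : u j = ((u j).1, 0) := Prod.ext rfl this
      rw [e2]
      cases (u j).1 <;> simp
    · simp
  have h1 : (Nat.card {u : Fin l → St N // IsOrphan (rule N) u} : ℝ) ≤
      ∑ i ∈ range (l - N), ((window N l i).card : ℝ) := by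
    have := hsub.trans Finset.card_biUnion_le
    exact_mod_cast this
  calc (Nat.card {u : Fin l → St N // IsOrphan (rule N) u} : ℝ) * (N + 1 : ℝ) ^ (N + 1)
      ≤ (∑ i ∈ range (l - N), ((window N l i).card : ℝ)) * (N + 1 : ℝ) ^ (N + 1) := by gcongr
    _ = ∑ i ∈ range (l - N), (Nat.card (Fin l → St N) : ℝ) := by
        rw [Finset.sum_mul]
        apply Finset.sum_congr rfl
        intro i hi
        apply card_window
        have := Finset.mem_range.mp hi
        omega
    _ = ((l - N : ℕ) : ℝ) * (Nat.card (Fin l → St N) : ℝ) := by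
        rw [Finset.sum_const, Finset.card_range, nsmul_eq_mul]
    _ ≤ (l : ℝ) * (Nat.card (Fin l → St N) : ℝ) := by
        gcongr
        exact Nat.sub_le _ _

/-! ### An explicit short orphan -/

theorem rule_nz_cases {N : ℕ} (s t y : St N) (hy : y.2 ≠ 0) (h : rule N s t = y) :
    s.1 = y.1 ∧ ((s.2 = Fin.last N ∧ t.2 = y.2) ∨
      ∃ hb : s.2 ≠ Fin.last N, (t.2 = 0 ∧ y.2 = tgt s.1 s.2 hb) ∨
        (t.2 = y.2 ∧ y.2 ≠ tgt s.1 s.2 hb)) := by
  unfold rule at h
  split_ifs at h with h1 h2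
  · rw [← h]; exact ⟨rfl, Or.inl ⟨h1, rfl⟩⟩
  · exfalso; apply hy; rw [← h]
  · refine ⟨by rw [← h], Or.inr ⟨h1, ?_⟩⟩
    have h3 : Equiv.swap 0 (tgt s.1 s.2 h1) t.2 = y.2 := by rw [← h]
    have h4 : t.2 = Equiv.swap 0 (tgt s.1 s.2 h1) y.2 := by rw [← h3]; simp
    by_cases h5 : y.2 = tgt s.1 s.2 h1
    · left; refine ⟨?_, h5⟩
      rw [h4, h5]; simp
    · right; refine ⟨?_, h5⟩
      rw [h4, Equiv.swap_apply_of_ne_of_ne hy h5]

theorem tgt_val {N : ℕ} (a : Bool) (b : Fin (N + 1)) (hb : b ≠ Fin.last N) :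
    (tgt a b hb).1 = if a = true ∧ b = 0 then 0 else b.1 + 1 := by
  unfold tgt
  split_ifs <;> rfl

/-- The orphan, as an infinite word of which only the first `N + 5` letters matter. -/
def orp (N : ℕ) (hN : 4 ≤ N) (i : ℕ) : St N :=
  if i = 0 then (false, ⟨1, by omega⟩)
  else if i = 1 then (false, ⟨3, by omega⟩)
  else if i = 2 then (false, ⟨4, by omega⟩)
  else if i < N + 3 then (false, 0)
  else if i = N + 3 then (true, 0)
  else (true, ⟨1, by omega⟩)

theorem orp_orphan (N : ℕ) (hN : 4 ≤ N) :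
    IsOrphan (rule N) (fun i : Fin (N + 5) => orp N hN i.1) := by
  rintro ⟨v', hv'⟩
  obtain ⟨v, hv⟩ : ∃ v : ℕ → St N, ∀ i < N + 5, rule N (v i) (v (i + 1)) = orp N hN i := by
    refine ⟨fun i => if h : i < N + 6 then v' ⟨i, h⟩ else (false, 0), ?_⟩
    intro i hi
    have := congrFun hv' ⟨i, hi⟩
    simp only [image, Fin.castSucc_mk, Fin.succ_mk] at this
    simp only [show i < N + 6 by omega, show i + 1 < N + 6 by omega, dite_true]
    exact this
  -- (A)
  have hA : (v 1).2.1 = 0 ∨ (v 1).2.1 = 1 := by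
    have h := hv 0 (by omega)
    have e : orp N hN 0 = (false, ⟨1, by omega⟩) := by simp [orp]
    rw [e] at h
    rcases (rule_nz_cases _ _ _ (by intro h; simpa using congrArg Fin.val h) h).2 with
      ⟨_, h2⟩ | ⟨_, ⟨h2, _⟩ | ⟨h2, _⟩⟩
    · right; rw [h2]
    · left; rw [h2]; rfl
    · right; rw [h2]
  -- (B)
  have hB : (v 1).1 = false ∧ (v 2).2.1 = 3 := by
    have h := hv 1 (by omega)
    have e : orp N hN 1 = (false, ⟨3, by omega⟩) := by simp [orp]
    rw [e] at h
    obtain ⟨h1, h2⟩ := rule_nz_cases _ _ _ (by intro h; simpa using congrArg Fin.val h) h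
    refine ⟨h1, ?_⟩
    rcases h2 with ⟨_, h2⟩ | ⟨hb, ⟨_, h3⟩ | ⟨h2, _⟩⟩
    · rw [h2]
    · exfalso
      have := congrArg Fin.val h3
      rw [tgt_val] at this
      simp only at this
      split_ifs at this
      · omega
    · rw [h2]
  -- (C)
  have hC : (v 2).1 = false ∧ (v 3).2 = 0 := by
    have h := hv 2 (by omega)
    have e : orp N hN 2 = (false, ⟨4, by omega⟩) := by simp [orp]
    rw [e] at h
    obtain ⟨h1, h2⟩ := rule_nz_cases _ _ _ (by intro h; simpa using congrArg Fin.val h) h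
    refine ⟨h1, ?_⟩
    rcases h2 with ⟨h3, _⟩ | ⟨hb, ⟨h2, _⟩ | ⟨_, h3⟩⟩
    · exfalso
      have := congrArg Fin.val h3
      rw [hB.2] at this
      simp at this
      omega
    · exact h2
    · exfalso
      apply h3
      apply Fin.ext
      rw [tgt_val, if_neg]
      · rw [hB.2]
      · rintro ⟨h4, _⟩
        rw [h1] at h4
        simp at h4
  -- (D)
  have hz : ∀ i, i < N → orp N hN (i + 3) = (false, 0) := by
    intro i hi
    simp [orp, hi]
  have hD : ∀ i, i < N → ((v (i + 4)).1 = false ∧ (v (i + 4)).2.1 = i + 1) ∨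
      ((v (i + 4)).1 = true ∧ (v (i + 4)).2.1 = 0) := by
    intro i
    induction i with
    | zero =>
      intro h0
      have h := hv 3 (by omega)
      have e := hz 0 h0
      simp only [zero_add] at e ⊢
      rw [e] at h
      rw [show (v 3) = ((v 3).1, (v 3).2) from rfl, show (v (3 + 1)) = ((v 4).1, (v 4).2) from rfl,
        rule_z_iff] at h
      rcases h with ⟨hb, h1, h2⟩ | ⟨h1, _, _⟩
      · have h3 : (v 4).1 = (v 3).1 := by rw [h1]; simp
        have h4 := congrArg Fin.val h2
        rw [tgt_val] at h4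
        rw [h4, h3, hC.2]
        cases (v 3).1 <;> simp
      · exfalso
        rw [hC.2] at h1
        have := congrArg Fin.val h1
        simp at this
        omega
    | succ i ih =>
      intro hi
      have h := hv (i + 1 + 3) (by omega)
      rw [hz (i + 1) hi] at h
      rw [show (v (i + 1 + 3)) = ((v (i + 4)).1, (v (i + 4)).2) from rfl,
        show (v (i + 1 + 3 + 1)) = ((v (i + 1 + 4)).1, (v (i + 1 + 4)).2) from rfl,
        rule_z_iff] at h
      rcases h with ⟨hb, h1, h2⟩ | ⟨h1, _, _⟩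
      · have h3 : (v (i + 1 + 4)).1 = (v (i + 4)).1 := by rw [h1]; simp
        have h4 := congrArg Fin.val h2
        rw [tgt_val] at h4
        rcases ih (by omega) with ⟨h5, h6⟩ | ⟨h5, h6⟩
        · left
          rw [h3, h4, h6]
          refine ⟨h5, ?_⟩
          rw [if_neg]
          rintro ⟨h7, _⟩
          rw [h5] at h7
          simp at h7
        · right
          rw [h3, h4]
          refine ⟨h5, ?_⟩
          rw [if_pos]
          exact ⟨h5, Fin.ext (by simpa using h6)⟩
      · exfalso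
        rcases ih (by omega) with ⟨h5, h6⟩ | ⟨h5, h6⟩
        · rw [h1] at h6; simp at h6; omega
        · rw [h1] at h6; simp at h6; omega
  -- (E)
  have hE : (v (N + 4)).1 = false ∧ (v (N + 4)).2.1 = 0 := by
    have h := hv (N + 3) (by omega)
    have e : orp N hN (N + 3) = (true, 0) := by simp [orp]
    rw [e] at h
    rw [show (v (N + 3)) = ((v (N + 3)).1, (v (N + 3)).2) from rfl,
      show (v (N + 3 + 1)) = ((v (N + 4)).1, (v (N + 4)).2) from rfl,
      rule_z_iff] at h
    have hlast := hD (N - 1) (by omega)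
    have e2 : N - 1 + 4 = N + 3 := by omega
    rw [e2] at hlast
    rcases hlast with ⟨h5, h6⟩ | ⟨h5, h6⟩
    · exfalso
      have hl : (v (N + 3)).2 = Fin.last N := by
        apply Fin.ext; rw [h6]; simp; omega
      rcases h with ⟨hb, _, _⟩ | ⟨_, h2, _⟩
      · exact hb hl
      · rw [h5] at h2; simp at h2
    · rcases h with ⟨hb, h1, h2⟩ | ⟨h1, _, _⟩
      · rw [h5] at h1
        refine ⟨by simpa using h1, ?_⟩
        have h4 := congrArg Fin.val h2
        rw [tgt_val, if_pos ⟨h5, Fin.ext (by simpa using h6)⟩] at h4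
        exact h4
      · exfalso
        rw [h1] at h6; simp at h6; omega
  -- (F)
  have h := hv (N + 4) (by omega)
  have e : orp N hN (N + 4) = (true, ⟨1, by omega⟩) := by simp [orp]
  rw [e] at h
  have h1 := (rule_nz_cases _ _ _ (by intro h; simpa using congrArg Fin.val h) h).1
  rw [hE.1] at h1
  simp at h1

theorem exists_shortest (N : ℕ) (hN : 4 ≤ N) :
    ∃ m, m ≤ N + 5 ∧ IsShortestOrphanLength (rule N) m := by
  classical
  have hex : ∃ m, ∃ u : Fin m → St N, IsOrphan (rule N) u := ⟨N + 5, _, orp_orphan N hN⟩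
  refine ⟨Nat.find hex, Nat.find_min' hex ⟨_, orp_orphan N hN⟩, Nat.find_spec hex, ?_⟩
  intro l hl u hu
  exact Nat.find_min hex hl ⟨u, hu⟩

/-! ### Polynomial bounds -/

theorem eval_le (P : MvPolynomial (Fin 2) ℝ) :
    ∃ C : ℕ, ∃ d : ℕ, ∀ n m : ℕ, 1 ≤ n → m ≤ n →
      |MvPolynomial.eval ![(n : ℝ), (m : ℝ)] P| ≤ (C : ℝ) * (n : ℝ) ^ d := by
  induction P using MvPolynomial.induction_on with
  | C a =>
    obtain ⟨C, hC⟩ := exists_nat_ge |a|
    refine ⟨C, 0, fun n m _ _ => ?_⟩
    simp only [MvPolynomial.eval_C, pow_zero, mul_one]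
    exact hC
  | add p q hp hq =>
    obtain ⟨C, d, h1⟩ := hp
    obtain ⟨C', d', h2⟩ := hq
    refine ⟨C + C', max d d', fun n m hn hm => ?_⟩
    have hn' : (1 : ℝ) ≤ n := by exact_mod_cast hn
    have h3 : (n : ℝ) ^ d ≤ (n : ℝ) ^ (max d d') := pow_le_pow_right₀ hn' (le_max_left _ _)
    have h4 : (n : ℝ) ^ d' ≤ (n : ℝ) ^ (max d d') := pow_le_pow_right₀ hn' (le_max_right _ _)
    rw [map_add]
    push_cast
    calc _ ≤ (C : ℝ) * (n : ℝ) ^ d + (C' : ℝ) * (n : ℝ) ^ d' :=
          (abs_add_le _ _).trans (add_le_add (h1 n m hn hm) (h2 n m hn hm))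
      _ ≤ (C : ℝ) * (n : ℝ) ^ (max d d') + (C' : ℝ) * (n : ℝ) ^ (max d d') := by gcongr
      _ = _ := by ring
  | mul_X p i hp =>
    obtain ⟨C, d, h1⟩ := hp
    refine ⟨C, d + 1, fun n m hn hm => ?_⟩
    have hm' : (m : ℝ) ≤ n := by exact_mod_cast hm
    have hm0 : (0 : ℝ) ≤ m := by positivity
    have hi : |(![(n : ℝ), (m : ℝ)] : Fin 2 → ℝ) i| ≤ n := by
      fin_cases i
      · simp
      · simpa [abs_of_nonneg hm0] using hm
    rw [map_mul, MvPolynomial.eval_X, abs_mul, pow_succ, ← mul_assoc]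
    exact mul_le_mul (h1 n m hn hm) hi (abs_nonneg _) (by positivity)

/-- **Main result.**  Let `P` be a polynomial in two variables.  For all large `N` there is a
non-surjective range-2 cellular automaton with `n = 2 (N + 1)` states whose shortest orphans have
length `m ≤ N + 5`, such that the proportion `ρ(l)` of orphans of length `l` is at most
`l / (N + 1) ^ (N + 1)` for all `l`, and in particular `ρ(l) ≤ 1 / 2` for all `l ≤ P(n, m)`. -/
theorem result (P : MvPolynomial (Fin 2) ℝ) :
    ∃ N₀ : ℕ, ∀ N ≥ N₀, ∃ (f : Bool × Fin (N + 1) → Bool × Fin (N + 1) → Bool × Fin (N + 1))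
      (m : ℕ), IsShortestOrphanLength f m ∧ m ≤ N + 5 ∧
        (∀ l : ℕ, rho f l ≤ (l : ℝ) / (N + 1 : ℝ) ^ (N + 1)) ∧
        ∀ l : ℕ, (l : ℝ) ≤
          MvPolynomial.eval ![(Fintype.card (Bool × Fin (N + 1)) : ℝ), (m : ℝ)] P →
          rho f l ≤ 1 / 2 := by
  obtain ⟨C, d, hP⟩ := eval_le P
  refine ⟨2 * C * 2 ^ d + 2 * d + 4, ?_⟩
  intro N hNdef
  have hN : 4 ≤ N := by omega
  obtain ⟨m, hm, hs⟩ := exists_shortest N hN
  refine ⟨rule N, m, hs, hm, rho_le N, ?_⟩
  intro l hl
  have hcard : Fintype.card (Bool × Fin (N + 1)) = 2 * (N + 1) := by simp [Fintype.card_prod]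
  rw [hcard] at hl
  have h1 := (le_abs_self _).trans (hP (2 * (N + 1)) m (by omega) (by omega))
  have h2 : (l : ℝ) ≤ (C : ℝ) * ((2 * (N + 1) : ℕ) : ℝ) ^ d := hl.trans h1
  refine (rho_le N l).trans ?_
  have hpos : (0 : ℝ) < (N + 1 : ℝ) ^ (N + 1) := by positivity
  rw [div_le_div_iff₀ hpos (by norm_num : (0 : ℝ) < 2), one_mul]
  have hN1 : (1 : ℝ) ≤ (N + 1 : ℝ) := by
    have : (0 : ℝ) ≤ (N : ℝ) := by positivity
    linarith
  have hC2 : (2 * C * 2 ^ d : ℝ) ≤ (N + 1 : ℝ) := by
    have : 2 * C * 2 ^ d ≤ N + 1 := by omega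
    exact_mod_cast this
  calc (l : ℝ) * 2 ≤ (C : ℝ) * ((2 * (N + 1) : ℕ) : ℝ) ^ d * 2 := by gcongr
    _ = (2 * C * 2 ^ d : ℝ) * (N + 1 : ℝ) ^ d := by push_cast; rw [mul_pow]; ring
    _ ≤ (N + 1 : ℝ) * (N + 1 : ℝ) ^ d := by gcongr
    _ = (N + 1 : ℝ) ^ (d + 1) := by ring
    _ ≤ (N + 1 : ℝ) ^ (N + 1) := pow_le_pow_right₀ hN1 (by omega)

end Pool.Agent.Results.MP_642fbc_lc.RareOrphans
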